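import Pool.Agent.H36NC.Win

set_option autoImplicit false
set_option linter.unusedSectionVars false

/-!
# Certificates of negative answers: the counting argument
-/

namespace Pool.Agent.H36NC

open Finset

open Classical in
/-- the cells in the classes `b i` modulo `m` -/
noncomputable def blk (S m : ℕ) {t : ℕ} (b : Fin t → Fin m) : Finset (Fin S) :=
  univ.filter fun s : Fin S => ∃ i, (s : ℕ) % m = b i

theorem blk_card (S m t : ℕ) (hm : 0 < m) (b : Fin t → Fin m) :
    (blk S m b).card ≤ t * (S / m + 1) := by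
  classical
  have h1 : blk S m b ⊆ univ.biUnion fun i : Fin t => univ.filter fun s : Fin S => (s : ℕ) % m = b i := by
    intro s hs
    obtain ⟨i, hi⟩ := (mem_filter.1 hs).2
    exact mem_biUnion.2 ⟨i, mem_univ _, mem_filter.2 ⟨mem_univ _, hi⟩⟩
  refine (card_le_card h1).trans (card_biUnion_le.trans ?_)
  have h2 : ∀ i : Fin t, (univ.filter fun s : Fin S => (s : ℕ) % m = b i).card ≤ S / m + 1 := by
    intro i
    rw [← card_range (S / m + 1)]
    apply card_le_card_of_injOn (fun s : Fin S => (s : ℕ) / m)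
    · intro s _
      rw [coe_range, Set.mem_Iio]
      exact Nat.lt_succ_of_le (Nat.div_le_div_right s.2.le)
    · intro s hs s' hs' h
      have k1 := (mem_filter.1 hs).2
      have k2 := (mem_filter.1 hs').2
      have k3 : (s : ℕ) / m = (s' : ℕ) / m := h
      apply Fin.ext
      rw [← Nat.div_add_mod (s : ℕ) m, ← Nat.div_add_mod (s' : ℕ) m, k1, k2, k3]
  calc ∑ i : Fin t, (univ.filter fun s : Fin S => (s : ℕ) % m = b i).card
      ≤ ∑ i : Fin t, (S / m + 1) := sum_le_sum fun i _ => h2 i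
    _ = t * (S / m + 1) := by rw [sum_const, card_univ, Fintype.card_fin, smul_eq_mul]

/-- the middle of the range of the sums -/
def Mid (N : ℕ) (η : ℝ) (z : ℕ) : Prop :=
  z < 2 * N - 1 ∧ η * N ≤ z + 1 ∧ η * N ≤ ((2 * N - 1 - z : ℕ) : ℝ)

open Classical in
theorem edge_card (N : ℕ) (η : ℝ) (hη : 0 ≤ η) (C : Finset ℕ) (hC : C ⊆ range (2 * N - 1)) :
    (C.card : ℝ) ≤ (C.filter (Mid N η)).card + 2 * (η * N) := by
  have hN : (0 : ℝ) ≤ η * N := by positivity
  have h1 : C ⊆ C.filter (Mid N η) ∪ (range ⌊η * N⌋₊ ∪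
      (range (2 * N - 1)).filter fun z => 2 * N - 2 - z < ⌊η * N⌋₊) := by
    intro z hz
    have hz2 := mem_range.1 (hC hz)
    by_cases ha : η * N ≤ z + 1
    · by_cases hb : η * N ≤ ((2 * N - 1 - z : ℕ) : ℝ)
      · exact mem_union_left _ (mem_filter.2 ⟨hz, hz2, ha, hb⟩)
      · push Not at hb
        apply mem_union_right
        apply mem_union_right
        rw [mem_filter]
        refine ⟨hC hz, ?_⟩
        have : 2 * N - 1 - z ≤ ⌊η * N⌋₊ := Nat.le_floor hb.le
        omega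
    · push Not at ha
      apply mem_union_right
      apply mem_union_left
      rw [mem_range]
      have : z + 1 ≤ ⌊η * N⌋₊ := Nat.le_floor (by push_cast; exact ha.le)
      omega
  have h2 : ((range (2 * N - 1)).filter fun z => 2 * N - 2 - z < ⌊η * N⌋₊).card ≤ ⌊η * N⌋₊ := by
    refine le_trans (b := (range ⌊η * (N : ℝ)⌋₊).card) ?_ (card_range _).le
    apply card_le_card_of_injOn (fun z => 2 * N - 2 - z)
    · intro z hz
      rw [coe_range, Set.mem_Iio]
      exact (mem_filter.1 hz).2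
    · intro z hz z' hz' h
      have k1 := mem_range.1 (mem_filter.1 hz).1
      have k2 := mem_range.1 (mem_filter.1 hz').1
      have k3 : 2 * N - 2 - z = 2 * N - 2 - z' := h
      omega
  have h3 : C.card ≤ (C.filter (Mid N η)).card + (⌊η * N⌋₊ + ⌊η * N⌋₊) := by
    refine (card_le_card h1).trans ((card_union_le _ _).trans (Nat.add_le_add_left ?_ _))
    refine (card_union_le _ _).trans (Nat.add_le_add ?_ h2)
    rw [card_range]
  have h4 : (⌊η * N⌋₊ : ℝ) ≤ η * N := Nat.floor_le hN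
  have h5 : (C.card : ℝ) ≤ (C.filter (Mid N η)).card + (⌊η * N⌋₊ + ⌊η * N⌋₊) := by
    exact_mod_cast h3
  linarith

section
variable {n N S W K t : ℕ} (cache : (Fin n → Fin N) → (Fin n → Fin N) → Fin K)
  (mem : (Fin n → Fin N) → (Fin n → Fin N) → Fin S → Fin W)
  (acc : Fin K → ℕ → (Fin t → Fin S) → (Fin t → Fin W) → Prop)

/-- `z` has a certificate -/
def Crt (p : (Fin n → Fin N) × (Fin n → Fin N)) (z : ℕ) : Prop :=
  ∃ a : Fin t → Fin S, acc (cache p.1 p.2) z a fun i => mem p.1 p.2 (a i)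

open Classical in
/-- the middle `z` certified by the contents `f` of the cells in the classes `b` -/
noncomputable def ZZ (k : Fin K) (N : ℕ) (η : ℝ) {m : ℕ} (b : Fin t → Fin m)
    (f : blk S m b → Fin W) : Finset ℕ :=
  (range (2 * N - 1)).filter fun z => Mid N η z ∧
    ∃ a : Fin t → blk S m b, acc k z (fun i => (a i).1) fun i => f (a i)

open Classical in
theorem exists_block (p : (Fin n → Fin N) × (Fin n → Fin N)) (η : ℝ) (m : ℕ) (hm : 0 < m) :
    (((range (2 * N - 1)).filter (Crt cache mem acc p)).filter (Mid N η)).card ≤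
      ∑ b : Fin t → Fin m, (ZZ acc (cache p.1 p.2) N η b fun s => mem p.1 p.2 s.1).card := by
  have h1 : ((range (2 * N - 1)).filter (Crt cache mem acc p)).filter (Mid N η) ⊆
      univ.biUnion fun b : Fin t → Fin m => ZZ acc (cache p.1 p.2) N η b fun s => mem p.1 p.2 s.1 := by
    intro z hz
    have h2 := (mem_filter.1 hz).2
    obtain ⟨h3, a, ha⟩ := mem_filter.1 (mem_filter.1 hz).1
    rw [mem_biUnion]
    refine ⟨fun i => ⟨(a i : ℕ) % m, Nat.mod_lt _ hm⟩, mem_univ _, ?_⟩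
    rw [ZZ, mem_filter]
    refine ⟨h3, h2, fun i => ⟨a i, ?_⟩, ha⟩
    exact mem_filter.2 ⟨mem_univ _, i, rfl⟩
  exact (card_le_card h1).trans card_biUnion_le

open Classical in
/-- **The counting argument.** -/
theorem count (δ : ℝ) (hδ : 0 < δ) (hδ1 : δ ≤ 1) (hN : 0 < N)
    (hsound : ∀ p z, (∃ i j, (p.1 i : ℕ) + (p.2 j : ℕ) = z) → ¬ Crt cache mem acc p z)
    (hcomp : δ * (2 * N - 1 : ℕ) * ((N : ℝ) ^ n * (N : ℝ) ^ n) ≤
      ∑ p : (Fin n → Fin N) × (Fin n → Fin N), (((range (2 * N - 1)).filter (Crt cache mem acc p)).card : ℝ))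
    (m : ℕ) (hm : 0 < m) (hmn : 16 * (m : ℝ) ^ t ≤ δ * n) (hW : 0 < W) :
    δ / 2 ≤ K * ((m : ℝ) ^ t * (W : ℝ) ^ (t * (S / m + 1)) * (2 * Real.exp (-(δ * n / 64)))) := by
  have hN' : (0 : ℝ) < N := by exact_mod_cast hN
  have hm' : (0 : ℝ) < m := by exact_mod_cast hm
  have hW' : (1 : ℝ) ≤ W := by exact_mod_cast hW
  have hNN : (N : ℝ) ≤ (2 * N - 1 : ℕ) := by
    have : N ≤ 2 * N - 1 := by omega
    exact_mod_cast this
  have hP : (0 : ℝ) < (N : ℝ) ^ n * (N : ℝ) ^ n := by positivity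
  have hcardP : (Fintype.card ((Fin n → Fin N) × (Fin n → Fin N)) : ℝ) = (N : ℝ) ^ n * (N : ℝ) ^ n := by
    rw [Fintype.card_prod, Fintype.card_fun, Fintype.card_fin, Fintype.card_fin]
    push_cast
    rfl
  -- good pairs
  set 𝒢 : Finset ((Fin n → Fin N) × (Fin n → Fin N)) := univ.filter fun p =>
    δ * N / 2 ≤ (((range (2 * N - 1)).filter (Crt cache mem acc p)).card : ℝ) with h𝒢
  have hgood : δ / 2 * ((N : ℝ) ^ n * (N : ℝ) ^ n) ≤ (𝒢.card : ℝ) := by
    have h1 : ∑ p : (Fin n → Fin N) × (Fin n → Fin N),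
        (((range (2 * N - 1)).filter (Crt cache mem acc p)).card : ℝ) ≤
        ∑ p : (Fin n → Fin N) × (Fin n → Fin N), ((if p ∈ 𝒢 then ((2 * N - 1 : ℕ) : ℝ) else 0) +
          δ * N / 2) := by
      refine sum_le_sum fun p _ => ?_
      split_ifs with h
      · have h2 : (((range (2 * N - 1)).filter (Crt cache mem acc p)).card : ℝ) ≤ (2 * N - 1 : ℕ) := by
          have := card_filter_le (range (2 * N - 1)) (Crt cache mem acc p)
          rw [card_range] at this
          exact_mod_cast this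
        have : 0 ≤ δ * N / 2 := by positivity
        linarith
      · have h2 : ¬ δ * N / 2 ≤ (((range (2 * N - 1)).filter (Crt cache mem acc p)).card : ℝ) :=
          fun h3 => h (mem_filter.2 ⟨mem_univ _, h3⟩)
        push Not at h2
        linarith
    rw [sum_add_distrib, sum_const, card_univ, nsmul_eq_mul, hcardP, ← sum_filter, sum_const,
      nsmul_eq_mul, filter_mem_eq_inter, univ_inter] at h1
    have h3 := hcomp.trans h1
    have h4 : (0 : ℝ) < (2 * N - 1 : ℕ) := lt_of_lt_of_le hN' hNN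
    have h5 : δ * N / 2 * ((N : ℝ) ^ n * (N : ℝ) ^ n) ≤
        δ * (2 * N - 1 : ℕ) / 2 * ((N : ℝ) ^ n * (N : ℝ) ^ n) := by
      apply mul_le_mul_of_nonneg_right _ hP.le
      nlinarith
    have h6 : δ / 2 * ((N : ℝ) ^ n * (N : ℝ) ^ n) * (2 * N - 1 : ℕ) ≤ 𝒢.card * (2 * N - 1 : ℕ) := by
      linarith
    exact le_of_mul_le_mul_right h6 h4
  -- every good pair avoids a large set
  have hμ : 0 < δ * N / (4 * (m : ℝ) ^ t) := by positivity
  have hcov : 𝒢 ⊆ univ.biUnion fun k : Fin K => univ.biUnion fun b : Fin t → Fin m =>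
      (univ.filter fun f : blk S m b → Fin W =>
        δ * N / (4 * (m : ℝ) ^ t) ≤ ((ZZ acc k N (δ / 8) b f).card : ℝ)).biUnion fun f =>
        univ.filter fun p : (Fin n → Fin N) × (Fin n → Fin N) =>
          ∀ i j, (p.1 i : ℕ) + (p.2 j : ℕ) ∉ ZZ acc k N (δ / 8) b f := by
    intro p hp
    have h1 := (mem_filter.1 hp).2
    have h2 := edge_card N (δ / 8) (by positivity) _
      (filter_subset (Crt cache mem acc p) (range (2 * N - 1)))
    have h3 := exists_block cache mem acc p (δ / 8) m hm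
    have h4 : δ * N / 4 ≤ ∑ b : Fin t → Fin m,
        ((ZZ acc (cache p.1 p.2) N (δ / 8) b fun s => mem p.1 p.2 s.1).card : ℝ) := by
      have h5 : ((((range (2 * N - 1)).filter (Crt cache mem acc p)).filter (Mid N (δ / 8))).card : ℝ) ≤
          ∑ b : Fin t → Fin m, ((ZZ acc (cache p.1 p.2) N (δ / 8) b fun s => mem p.1 p.2 s.1).card : ℝ) := by
        exact_mod_cast h3
      linarith
    obtain ⟨b, hb⟩ : ∃ b : Fin t → Fin m, δ * N / (4 * (m : ℝ) ^ t) ≤
        ((ZZ acc (cache p.1 p.2) N (δ / 8) b fun s => mem p.1 p.2 s.1).card : ℝ) := by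
      by_contra hcon
      push Not at hcon
      have h6 : Nonempty (Fin t → Fin m) := ⟨fun _ => ⟨0, hm⟩⟩
      have h7 : ∑ b : Fin t → Fin m, ((ZZ acc (cache p.1 p.2) N (δ / 8) b fun s => mem p.1 p.2 s.1).card : ℝ) <
          ∑ b : Fin t → Fin m, δ * N / (4 * (m : ℝ) ^ t) :=
        sum_lt_sum_of_nonempty univ_nonempty fun b _ => hcon b
      rw [sum_const, card_univ, Fintype.card_fun, Fintype.card_fin, Fintype.card_fin, nsmul_eq_mul]
        at h7
      have h8 : ((m ^ t : ℕ) : ℝ) * (δ * N / (4 * (m : ℝ) ^ t)) = δ * N / 4 := by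
        push_cast
        field_simp
      rw [h8] at h7
      linarith
    rw [mem_biUnion]
    refine ⟨cache p.1 p.2, mem_univ _, ?_⟩
    rw [mem_biUnion]
    refine ⟨b, mem_univ _, ?_⟩
    rw [mem_biUnion]
    refine ⟨fun s => mem p.1 p.2 s.1, mem_filter.2 ⟨mem_univ _, hb⟩, ?_⟩
    rw [mem_filter]
    refine ⟨mem_univ _, fun i j hij => ?_⟩
    obtain ⟨-, -, a, ha⟩ := mem_filter.1 hij
    exact hsound p _ ⟨i, j, rfl⟩ ⟨fun i => (a i).1, ha⟩
  -- the union bound
  have hcard : (𝒢.card : ℝ) ≤ ∑ _k : Fin K, ∑ b : Fin t → Fin m, ∑ f : blk S m b → Fin W,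
      (2 * Real.exp (-(δ * n / 64)) * ((N : ℝ) ^ n * (N : ℝ) ^ n)) := by
    have h1 : (𝒢.card : ℝ) ≤ ∑ k : Fin K, ∑ b : Fin t → Fin m,
        ∑ f ∈ (univ.filter fun f : blk S m b → Fin W =>
          δ * N / (4 * (m : ℝ) ^ t) ≤ ((ZZ acc k N (δ / 8) b f).card : ℝ)),
          ((univ.filter fun p : (Fin n → Fin N) × (Fin n → Fin N) =>
            ∀ i j, (p.1 i : ℕ) + (p.2 j : ℕ) ∉ ZZ acc k N (δ / 8) b f).card : ℝ) := by
      have h2 := (card_le_card hcov).trans (card_biUnion_le.trans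
        (sum_le_sum fun k _ => card_biUnion_le.trans (sum_le_sum fun b _ => card_biUnion_le)))
      exact_mod_cast h2
    refine h1.trans (sum_le_sum fun k _ => sum_le_sum fun b _ => ?_)
    refine le_trans (sum_le_sum (g := fun _ =>
        (2 * Real.exp (-(δ * n / 64)) * ((N : ℝ) ^ n * (N : ℝ) ^ n))) fun f hf => ?_)
      (sum_le_sum_of_subset_of_nonneg (filter_subset _ _) fun f _ _ => by positivity)
    have h3 := (mem_filter.1 hf).2
    have h4 := avoid n N hN (ZZ acc k N (δ / 8) b f) (δ / 8) (by positivity) (by linarith)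
      (fun z hz => (mem_filter.1 hz).2.1) (by
        have h5 : (n : ℝ) * (δ * N / (4 * (m : ℝ) ^ t)) ≤ n * ((ZZ acc k N (δ / 8) b f).card : ℝ) :=
          mul_le_mul_of_nonneg_left h3 (Nat.cast_nonneg _)
        refine le_trans ?_ h5
        have h6 : (n : ℝ) * (δ * N / (4 * (m : ℝ) ^ t)) = (δ * n) * N / (4 * (m : ℝ) ^ t) := by ring
        rw [h6, le_div_iff₀ (by positivity)]
        nlinarith)
    have h7 : δ / 8 * n / 8 = δ * n / 64 := by ring
    rw [h7] at h4
    exact h4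
  have hsum : ∑ b : Fin t → Fin m, ∑ f : blk S m b → Fin W,
      (2 * Real.exp (-(δ * n / 64)) * ((N : ℝ) ^ n * (N : ℝ) ^ n)) ≤
      (m : ℝ) ^ t * (W : ℝ) ^ (t * (S / m + 1)) * (2 * Real.exp (-(δ * n / 64))) *
        ((N : ℝ) ^ n * (N : ℝ) ^ n) := by
    have h1 : ∀ b : Fin t → Fin m, ∑ f : blk S m b → Fin W,
        (2 * Real.exp (-(δ * n / 64)) * ((N : ℝ) ^ n * (N : ℝ) ^ n)) ≤
        (W : ℝ) ^ (t * (S / m + 1)) * (2 * Real.exp (-(δ * n / 64)) * ((N : ℝ) ^ n * (N : ℝ) ^ n)) := by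
      intro b
      rw [sum_const, card_univ, Fintype.card_fun, Fintype.card_fin, Fintype.card_coe, nsmul_eq_mul]
      apply mul_le_mul_of_nonneg_right _ (by positivity)
      push_cast
      exact pow_le_pow_right₀ hW' (blk_card S m t hm b)
    refine (sum_le_sum fun b _ => h1 b).trans ?_
    rw [sum_const, card_univ, Fintype.card_fun, Fintype.card_fin, Fintype.card_fin, nsmul_eq_mul]
    push_cast
    apply le_of_eq
    ring
  have hcard2 : (𝒢.card : ℝ) ≤ K * ((m : ℝ) ^ t * (W : ℝ) ^ (t * (S / m + 1)) *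
      (2 * Real.exp (-(δ * n / 64)))) * ((N : ℝ) ^ n * (N : ℝ) ^ n) := by
    refine hcard.trans ((sum_le_sum fun k _ => hsum).trans ?_)
    rw [sum_const, card_univ, Fintype.card_fin, nsmul_eq_mul]
    apply le_of_eq
    ring
  exact le_of_mul_le_mul_right (hgood.trans hcard2) hP

end

end Pool.Agent.H36NC
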