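import Mathlib

set_option autoImplicit false
set_option linter.unusedSectionVars false

/-!
# Random sets of translates cover a constant part, except with exponentially small probability
-/

namespace Pool.Agent.H36NC

open Finset

theorem exp_neg_le {x : ℝ} (h0 : 0 ≤ x) (h1 : x ≤ 1) : Real.exp (-x) ≤ 1 - x / 2 := by
  have h2 : 1 + x ≤ Real.exp x := by linarith [Real.add_one_le_exp x]
  have h3 : 0 < 1 + x := by linarith
  rw [Real.exp_neg]
  calc (Real.exp x)⁻¹ ≤ (1 + x)⁻¹ := inv_anti₀ h3 h2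
    _ ≤ 1 - x / 2 := by
      rw [inv_le_iff_one_le_mul₀ h3]
      nlinarith

section
variable {X Y : Type} [Fintype X] [DecidableEq X] [Fintype Y]

/-- the union of the sets `T (y j)` -/
def cov (T : Y → Finset X) {n : ℕ} (y : Fin n → Y) : Finset X := univ.biUnion fun j => T (y j)

theorem cov_cons (T : Y → Finset X) {n : ℕ} (y0 : Y) (y : Fin n → Y) :
    cov T (Fin.cons y0 y : Fin (n + 1) → Y) = T y0 ∪ cov T y := by
  ext x
  simp only [cov, mem_biUnion, mem_univ, true_and, mem_union, Fin.exists_fin_succ, Fin.cons_zero,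
    Fin.cons_succ]

/-- the potential -/
noncomputable def pot (θ M : ℝ) (U : Finset X) : ℝ :=
  if (U.card : ℝ) < θ then Real.exp (-(U.card / M)) else 0

theorem pot_nonneg (θ M : ℝ) (U : Finset X) : 0 ≤ pot θ M U := by
  unfold pot
  split_ifs
  · exact (Real.exp_pos _).le
  · exact le_rfl

theorem pot_step (T : Y → Finset X) (θ M κ : ℝ) (hM : 0 < M) (hT : ∀ y, ((T y).card : ℝ) ≤ M)
    (hκ : ∀ U : Finset X, (U.card : ℝ) < θ →
      κ * M * Fintype.card Y ≤ ∑ y, ((T y \ U).card : ℝ)) (U : Finset X) :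
    ∑ y, pot θ M (T y ∪ U) ≤ (1 - κ / 2) * Fintype.card Y * pot θ M U := by
  by_cases hU : (U.card : ℝ) < θ
  · have h1 : ∀ y, pot θ M (T y ∪ U) ≤ pot θ M U * (1 - ((T y \ U).card / M) / 2) := by
      intro y
      have hc : ((T y ∪ U).card : ℝ) = U.card + (T y \ U).card := by
        rw [union_comm, ← union_sdiff_self_eq_union, card_union_of_disjoint disjoint_sdiff]
        push_cast
        ring
      have h2 : (T y ∪ U).card = (T y ∪ U).card := rfl
      have h3 : 0 ≤ ((T y \ U).card : ℝ) / M := by positivity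
      have h4 : ((T y \ U).card : ℝ) / M ≤ 1 := by
        rw [div_le_one hM]
        exact le_trans (by exact_mod_cast card_le_card sdiff_subset) (hT y)
      have h5 := exp_neg_le h3 h4
      have h6 : pot θ M (T y ∪ U) ≤ pot θ M U * Real.exp (-((T y \ U).card / M)) := by
        unfold pot
        rw [if_pos hU]
        split_ifs
        · rw [← Real.exp_add, hc]
          apply le_of_eq
          congr 1
          ring
        · positivity
      exact h6.trans (mul_le_mul_of_nonneg_left h5 (pot_nonneg _ _ _))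
    calc ∑ y, pot θ M (T y ∪ U) ≤ ∑ y, pot θ M U * (1 - ((T y \ U).card / M) / 2) :=
          sum_le_sum fun y _ => h1 y
      _ = pot θ M U * (Fintype.card Y - (∑ y, ((T y \ U).card : ℝ)) / M / 2) := by
          rw [← mul_sum, sum_sub_distrib, ← sum_div, ← sum_div]
          simp
      _ ≤ pot θ M U * ((1 - κ / 2) * Fintype.card Y) := by
          apply mul_le_mul_of_nonneg_left _ (pot_nonneg _ _ _)
          have h7 := hκ U hU
          have h8 : κ * Fintype.card Y ≤ (∑ y, ((T y \ U).card : ℝ)) / M := by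
            rw [le_div_iff₀ hM]
            linarith
          linarith
      _ = _ := by ring
  · have h1 : pot θ M U = 0 := if_neg hU
    rw [h1, mul_zero]
    apply le_of_eq
    apply sum_eq_zero
    intro y _
    apply if_neg
    intro h2
    apply hU
    refine lt_of_le_of_lt ?_ h2
    exact_mod_cast card_le_card subset_union_right

theorem pot_sum (T : Y → Finset X) (θ M κ : ℝ) (hM : 0 < M) (hκ2 : κ ≤ 2)
    (hT : ∀ y, ((T y).card : ℝ) ≤ M)
    (hκ : ∀ U : Finset X, (U.card : ℝ) < θ →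
      κ * M * Fintype.card Y ≤ ∑ y, ((T y \ U).card : ℝ)) (n : ℕ) :
    ∑ y : Fin n → Y, pot θ M (cov T y) ≤ ((1 - κ / 2) * Fintype.card Y) ^ n := by
  induction n with
  | zero =>
    simp only [pow_zero]
    rw [Fintype.sum_unique]
    unfold pot
    split_ifs
    · rw [Real.exp_le_one_iff]
      have : 0 ≤ ((cov T (default : Fin 0 → Y)).card : ℝ) / M := by positivity
      linarith
    · exact zero_le_one
  | succ n ih =>
    rw [← (Fin.consEquiv fun _ : Fin (n + 1) => Y).sum_comp, Fintype.sum_prod_type, sum_comm]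
    have hq : 0 ≤ (1 - κ / 2) * (Fintype.card Y : ℝ) := by
      have : 0 ≤ 1 - κ / 2 := by linarith
      positivity
    calc ∑ y : Fin n → Y, ∑ y0 : Y, pot θ M (cov T (Fin.consEquiv (fun _ : Fin (n + 1) => Y) (y0, y)))
        = ∑ y : Fin n → Y, ∑ y0 : Y, pot θ M (T y0 ∪ cov T y) := by
          refine sum_congr rfl fun y _ => sum_congr rfl fun y0 _ => ?_
          rw [← cov_cons]
          rfl
      _ ≤ ∑ y : Fin n → Y, (1 - κ / 2) * Fintype.card Y * pot θ M (cov T y) :=
          sum_le_sum fun y _ => pot_step T θ M κ hM hT hκ _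
      _ = (1 - κ / 2) * Fintype.card Y * ∑ y : Fin n → Y, pot θ M (cov T y) := by
          rw [← mul_sum]
      _ ≤ (1 - κ / 2) * Fintype.card Y * ((1 - κ / 2) * Fintype.card Y) ^ n :=
          mul_le_mul_of_nonneg_left ih hq
      _ = _ := by ring

/-- few `y` cover less than `θ` points -/
theorem few_bad (T : Y → Finset X) (θ M κ : ℝ) (hM : 0 < M) (hκ2 : κ ≤ 2)
    (hT : ∀ y, ((T y).card : ℝ) ≤ M)
    (hκ : ∀ U : Finset X, (U.card : ℝ) < θ →
      κ * M * Fintype.card Y ≤ ∑ y, ((T y \ U).card : ℝ)) (n : ℕ) :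
    ((univ.filter fun y : Fin n → Y => ((cov T y).card : ℝ) < θ).card : ℝ) ≤
      Real.exp (θ / M) * ((1 - κ / 2) * Fintype.card Y) ^ n := by
  have h1 := pot_sum T θ M κ hM hκ2 hT hκ n
  have h2 : ((univ.filter fun y : Fin n → Y => ((cov T y).card : ℝ) < θ).card : ℝ) *
      Real.exp (-(θ / M)) ≤ ∑ y : Fin n → Y, pot θ M (cov T y) := by
    rw [← nsmul_eq_mul, ← sum_const, sum_filter]
    refine sum_le_sum fun y _ => ?_
    unfold pot
    split_ifs with h
    · rw [Real.exp_le_exp]
      have : ((cov T y).card : ℝ) / M ≤ θ / M := div_le_div_of_nonneg_right h.le hM.le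
      linarith
    · exact le_rfl
  have h3 := h2.trans h1
  rw [Real.exp_neg, ← div_eq_mul_inv, div_le_iff₀ (Real.exp_pos _)] at h3
  linarith

/-- few pairs avoid all the `T (y j)` -/
theorem few_pairs (T : Y → Finset X) (θ M κ : ℝ) (hθ : 0 ≤ θ) (hM : 0 < M) (hκ0 : 0 ≤ κ)
    (hκ2 : κ ≤ 2)
    (hT : ∀ y, ((T y).card : ℝ) ≤ M)
    (hκ : ∀ U : Finset X, (U.card : ℝ) < θ →
      κ * M * Fintype.card Y ≤ ∑ y, ((T y \ U).card : ℝ)) (n : ℕ) :
    ((univ.filter fun p : (Fin n → X) × (Fin n → Y) => ∀ i j, p.1 i ∉ T (p.2 j)).card : ℝ) ≤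
      (Fintype.card X : ℝ) ^ n * (Real.exp (θ / M) * ((1 - κ / 2) * Fintype.card Y) ^ n) +
      (Fintype.card X - θ) ^ n * (Fintype.card Y : ℝ) ^ n ∨ (Fintype.card X : ℝ) < θ := by
  by_cases hX : (Fintype.card X : ℝ) < θ
  · exact Or.inr hX
  push Not at hX
  left
  have h1 := few_bad T θ M κ hM hκ2 hT hκ n
  have h2 : ((univ.filter fun p : (Fin n → X) × (Fin n → Y) => ∀ i j, p.1 i ∉ T (p.2 j)).card : ℝ)
      = ∑ y : Fin n → Y, ((Fintype.card X : ℝ) - (cov T y).card) ^ n := by
    rw [card_eq_sum_ones, sum_filter, Nat.cast_sum, Fintype.sum_prod_type, sum_comm]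
    refine sum_congr rfl fun y _ => ?_
    have h3 : (univ.filter fun x : Fin n → X => ∀ i j, x i ∉ T (y j)) =
        Fintype.piFinset fun _ : Fin n => (cov T y)ᶜ := by
      ext x
      simp only [mem_filter, mem_univ, true_and, Fintype.mem_piFinset, mem_compl, cov, mem_biUnion,
        not_exists]
    have h4 : (∑ x : Fin n → X, (((if ∀ i j, x i ∉ T (y j) then 1 else 0 : ℕ)) : ℝ)) =
        ((univ.filter fun x : Fin n → X => ∀ i j, x i ∉ T (y j)).card : ℝ) := by
      rw [card_eq_sum_ones, sum_filter, Nat.cast_sum]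
    rw [h4, h3, Fintype.card_piFinset_const, card_compl]
    rw [Nat.cast_pow, Nat.cast_sub (card_le_univ _)]
  rw [h2]
  have h5 : ∀ y : Fin n → Y, ((Fintype.card X : ℝ) - (cov T y).card) ^ n ≤
      (Fintype.card X : ℝ) ^ n * (if ((cov T y).card : ℝ) < θ then 1 else 0) +
        (Fintype.card X - θ) ^ n := by
    intro y
    have h6 : ((cov T y).card : ℝ) ≤ Fintype.card X := by exact_mod_cast card_le_univ _
    have h8 : (0 : ℝ) ≤ (Fintype.card X - θ) ^ n := pow_nonneg (by linarith) _
    split_ifs with h7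
    · have : ((Fintype.card X : ℝ) - (cov T y).card) ^ n ≤ (Fintype.card X : ℝ) ^ n :=
        pow_le_pow_left₀ (by linarith) (by linarith [Nat.cast_nonneg (α := ℝ) (cov T y).card]) _
      linarith
    · push Not at h7
      have : ((Fintype.card X : ℝ) - (cov T y).card) ^ n ≤ (Fintype.card X - θ) ^ n :=
        pow_le_pow_left₀ (by linarith) (by linarith) _
      linarith
  calc ∑ y : Fin n → Y, ((Fintype.card X : ℝ) - (cov T y).card) ^ n
      ≤ ∑ y : Fin n → Y, ((Fintype.card X : ℝ) ^ n * (if ((cov T y).card : ℝ) < θ then 1 else 0) +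
        (Fintype.card X - θ) ^ n) := sum_le_sum fun y _ => h5 y
    _ = (Fintype.card X : ℝ) ^ n *
        ((univ.filter fun y : Fin n → Y => ((cov T y).card : ℝ) < θ).card : ℝ) +
        (Fintype.card Y : ℝ) ^ n * (Fintype.card X - θ) ^ n := by
        rw [sum_add_distrib, ← mul_sum, sum_boole, sum_const, card_univ, Fintype.card_fun,
          Fintype.card_fin, nsmul_eq_mul, Nat.cast_pow]
    _ ≤ _ := by
        have h9 := mul_le_mul_of_nonneg_left h1 (pow_nonneg (Nat.cast_nonneg (α := ℝ)
          (Fintype.card X)) n)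
        linarith

end

end Pool.Agent.H36NC
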