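import Pool.Agent.H36NC.Cell

set_option autoImplicit false
set_option linter.unusedSectionVars false

/-!
# Certificates of negative answers: the bound
-/

namespace Pool.Agent.H36NC

open Finset

theorem calc_bound (n S W K t : ℕ) (ht : 1 ≤ t) (hW : 2 ≤ W) (hK : 1 ≤ K) (δ : ℝ) (hδ : 0 < δ)
    (hδ1 : δ ≤ 1)
    (hbig : 1024 * (t * Real.logb 2 W + Real.logb 2 K + Real.log (1 / δ)) ≤ δ * n)
    (h : ∀ m : ℕ, 0 < m → 16 * (m : ℝ) ^ t ≤ δ * n →
      δ / 2 ≤ K * ((m : ℝ) ^ t * (W : ℝ) ^ (t * (S / m + 1)) * (2 * Real.exp (-(δ * n / 64))))) :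
    (δ * n) ^ (1 + 1 / (t : ℝ)) ≤ 65536 * t * S * Real.logb 2 W := by
  have hW' : (2 : ℝ) ≤ W := by exact_mod_cast hW
  have hK' : (1 : ℝ) ≤ K := by exact_mod_cast hK
  have ht' : (1 : ℝ) ≤ t := by exact_mod_cast ht
  have hL2 : 1 ≤ Real.logb 2 W := by
    rw [Real.le_logb_iff_rpow_le (by norm_num) (by linarith), Real.rpow_one]
    exact hW'
  have hlog2 : Real.log 2 ≤ 0.7 := by linarith [Real.log_two_lt_d9]
  have hlog2' : 0 < Real.log 2 := Real.log_pos (by norm_num)
  have hL : Real.log W = Real.logb 2 W * Real.log 2 := by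
    rw [Real.logb, div_mul_cancel₀ _ hlog2'.ne']
  have hLL : Real.log W ≤ Real.logb 2 W := by rw [hL]; nlinarith
  have hL0 : 0 ≤ Real.log W := by rw [hL]; positivity
  have hK0 : 0 ≤ Real.log K := Real.log_nonneg hK'
  have hKK : Real.log K ≤ Real.logb 2 K := by
    have : Real.log K = Real.logb 2 K * Real.log 2 := by
      rw [Real.logb, div_mul_cancel₀ _ hlog2'.ne']
    have h2 : 0 ≤ Real.logb 2 K := Real.logb_nonneg (by norm_num) hK'
    rw [this]
    nlinarith
  have hlδ : 0 ≤ Real.log (1 / δ) := Real.log_nonneg (by rw [le_div_iff₀ hδ]; linarith)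
  have htL : 1 ≤ (t : ℝ) * Real.logb 2 W := by nlinarith
  have hδn : 1024 ≤ δ * n := by linarith
  set x : ℝ := δ * n / 256 with hx
  have hx1 : 1 ≤ x := by rw [hx]; linarith
  have hxt : 1 ≤ x ^ (1 / (t : ℝ)) := Real.one_le_rpow hx1 (by positivity)
  set m : ℕ := ⌊x ^ (1 / (t : ℝ))⌋₊ with hm
  have hm1 : 1 ≤ m := Nat.le_floor (by exact_mod_cast hxt)
  have hm1' : (1 : ℝ) ≤ m := by exact_mod_cast hm1
  have hmx : (m : ℝ) ≤ x ^ (1 / (t : ℝ)) := Nat.floor_le (by linarith)
  have hxm : x ^ (1 / (t : ℝ)) ≤ 2 * m := by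
    have := Nat.lt_floor_add_one (x ^ (1 / (t : ℝ)))
    rw [← hm] at this
    linarith
  have hmt : (m : ℝ) ^ t ≤ x := by
    calc (m : ℝ) ^ t ≤ (x ^ (1 / (t : ℝ))) ^ t := pow_le_pow_left₀ (by linarith) hmx _
      _ = x := by
        rw [one_div]
        exact Real.rpow_inv_natCast_pow (by linarith) (by omega)
  have h1 := h m (by omega) (by rw [hx] at hmt; linarith)
  -- logarithms
  have hmpos : (0 : ℝ) < (m : ℝ) ^ t := by positivity
  have hWpos : (0 : ℝ) < (W : ℝ) ^ (t * (S / m + 1)) := by positivity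
  have h2 : Real.log (δ / 2) ≤ Real.log K + Real.log ((m : ℝ) ^ t) +
      (t * (S / m + 1) : ℕ) * Real.log W + (Real.log 2 - δ * n / 64) := by
    have h3 := Real.log_le_log (by positivity) h1
    rw [Real.log_mul (by linarith) (by positivity), Real.log_mul (by positivity) (by positivity),
      Real.log_mul hmpos.ne' hWpos.ne',
      Real.log_mul (by norm_num) (Real.exp_pos _).ne', Real.log_exp,
      Real.log_pow W (t * (S / m + 1))] at h3
    linarith
  have h4 : Real.log (δ / 2) = - Real.log (1 / δ) - Real.log 2 := by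
    rw [Real.log_div hδ.ne' (by norm_num), one_div, Real.log_inv]
    ring
  have h5 : Real.log ((m : ℝ) ^ t) ≤ x := by
    have := Real.log_le_sub_one_of_pos hmpos
    linarith
  have h6 : ((t * (S / m + 1) : ℕ) : ℝ) * Real.log W ≤ t * (S / m) * Real.log W + t * Real.log W := by
    have h7 : ((S / m : ℕ) : ℝ) ≤ (S : ℝ) / m := Nat.cast_div_le
    have h8 : ((t * (S / m + 1) : ℕ) : ℝ) ≤ t * ((S : ℝ) / m) + t := by
      push_cast
      nlinarith
    calc ((t * (S / m + 1) : ℕ) : ℝ) * Real.log W ≤ (t * ((S : ℝ) / m) + t) * Real.log W :=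
          mul_le_mul_of_nonneg_right h8 hL0
      _ = _ := by ring
  have h9 : (t : ℝ) * Real.log W ≤ t * Real.logb 2 W := mul_le_mul_of_nonneg_left hLL (by linarith)
  have h10 : δ * n / 128 ≤ t * (S / m) * Real.log W := by
    rw [hx] at h5
    linarith
  have h11 : t * ((S : ℝ) / m) * Real.log W ≤ t * S * Real.logb 2 W / m := by
    have : t * ((S : ℝ) / m) * Real.log W = t * S * Real.log W / m := by ring
    rw [this]
    apply div_le_div_of_nonneg_right _ (by linarith)
    exact mul_le_mul_of_nonneg_left hLL (by positivity)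
  have h12 : δ * n * m ≤ 128 * (t * S * Real.logb 2 W) := by
    have h13 := h10.trans h11
    rw [le_div_iff₀ (by linarith)] at h13
    linarith
  have h14 : (δ * n) ^ (1 / (t : ℝ)) ≤ 512 * m := by
    have h15 : δ * n = 256 * x := by rw [hx]; ring
    rw [h15, Real.mul_rpow (by norm_num) (by linarith)]
    have h16 : (256 : ℝ) ^ (1 / (t : ℝ)) ≤ 256 := by
      have h17 : 1 / (t : ℝ) ≤ 1 := by
        rw [div_le_one (by linarith)]
        exact ht'
      calc (256 : ℝ) ^ (1 / (t : ℝ)) ≤ (256 : ℝ) ^ (1 : ℝ) :=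
            Real.rpow_le_rpow_of_exponent_le (by norm_num) h17
        _ = 256 := Real.rpow_one _
    calc (256 : ℝ) ^ (1 / (t : ℝ)) * x ^ (1 / (t : ℝ)) ≤ 256 * (2 * m) :=
          mul_le_mul h16 hxm (by linarith) (by norm_num)
      _ = 512 * m := by ring
  have hpos : 0 < δ * n := by linarith
  rw [Real.rpow_add hpos, Real.rpow_one]
  calc δ * n * (δ * n) ^ (1 / (t : ℝ)) ≤ δ * n * (512 * m) :=
        mul_le_mul_of_nonneg_left h14 hpos.le
    _ = 512 * (δ * n * m) := by ring
    _ ≤ 512 * (128 * (t * S * Real.logb 2 W)) := by linarith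
    _ = _ := by ring

end Pool.Agent.H36NC
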