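import Pool.Agent.H36NC.Cov

set_option autoImplicit false
set_option linter.unusedSectionVars false

/-!
# Sums of two random sets of integers meet every set in the middle of the range
-/

namespace Pool.Agent.H36NC

open Finset

/-- the `x` with `x + y ∈ Z` -/
def tr (N : ℕ) (Z : Finset ℕ) (y : Fin N) : Finset (Fin N) :=
  univ.filter fun x : Fin N => (x : ℕ) + (y : ℕ) ∈ Z

theorem tr_card (N : ℕ) (Z : Finset ℕ) (y : Fin N) : (tr N Z y).card ≤ Z.card := by
  apply card_le_card_of_injOn (fun x : Fin N => (x : ℕ) + (y : ℕ))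
  · intro x hx
    exact (mem_filter.1 hx).2
  · intro x _ x' _ h
    ext
    simpa using h

/-- the number of representations of `z` -/
theorem rep_card (N : ℕ) (z : ℕ) (hz : z < 2 * N - 1) (e : ℕ) (h1 : e ≤ z + 1)
    (h2 : e ≤ 2 * N - 1 - z) (h3 : e ≤ N) :
    e ≤ (univ.filter fun p : Fin N × Fin N => (p.1 : ℕ) + (p.2 : ℕ) = z).card := by
  have hinj : ∃ f : Fin e → Fin N × Fin N, Function.Injective f ∧
      ∀ i, ((f i).1 : ℕ) + ((f i).2 : ℕ) = z := by
    by_cases hzN : z < N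
    · refine ⟨fun i => (⟨i, by omega⟩, ⟨z - i, by omega⟩), ?_, ?_⟩
      · intro i j h
        have := congrArg (fun p : Fin N × Fin N => (p.1 : ℕ)) h
        exact Fin.ext this
      · intro i
        show (i : ℕ) + (z - i) = z
        omega
    · refine ⟨fun i => (⟨z - (N - 1) + i, by omega⟩, ⟨N - 1 - i, by omega⟩), ?_, ?_⟩
      · intro i j h
        have h4 := congrArg (fun p : Fin N × Fin N => (p.1 : ℕ)) h
        have h5 : z - (N - 1) + (i : ℕ) = z - (N - 1) + j := h4
        exact Fin.ext (by omega)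
      · intro i
        show z - (N - 1) + i + (N - 1 - i) = z
        omega
  obtain ⟨f, hf, hfz⟩ := hinj
  have h4 : (univ.image f).card = e := by
    rw [card_image_of_injective _ hf, card_univ, Fintype.card_fin]
  rw [← h4]
  apply card_le_card
  intro p hp
  obtain ⟨i, -, rfl⟩ := mem_image.1 hp
  exact mem_filter.2 ⟨mem_univ _, hfz i⟩

/-- the translates cover new points -/
theorem new_points (N : ℕ) (Z : Finset ℕ) (e : ℕ) (he : e ≤ N)
    (hZ : ∀ z ∈ Z, z < 2 * N - 1 ∧ e ≤ z + 1 ∧ e ≤ 2 * N - 1 - z) (U : Finset (Fin N)) :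
    (Z.card : ℝ) * (e - U.card) ≤ ∑ y, ((tr N Z y \ U).card : ℝ) := by
  have h1 : ∀ y : Fin N, ((tr N Z y \ U).card : ℝ) =
      ∑ z ∈ Z, ((univ.filter fun x : Fin N => (x : ℕ) + (y : ℕ) = z ∧ x ∉ U).card : ℝ) := by
    intro y
    have h2 : tr N Z y \ U =
        Z.biUnion fun z => univ.filter fun x : Fin N => (x : ℕ) + (y : ℕ) = z ∧ x ∉ U := by
      ext x
      simp only [tr, mem_sdiff, mem_filter, mem_univ, true_and, mem_biUnion]
      constructor
      · rintro ⟨h1, h2⟩
        exact ⟨_, h1, rfl, h2⟩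
      · rintro ⟨z, hz, rfl, h2⟩
        exact ⟨hz, h2⟩
    rw [h2, card_biUnion]
    · push_cast
      rfl
    · intro z _ z' _ hzz
      rw [Function.onFun, disjoint_left]
      intro x hx hx'
      exact hzz ((mem_filter.1 hx).2.1.symm.trans (mem_filter.1 hx').2.1)
  have h3 : ∀ z ∈ Z, (e : ℝ) - U.card ≤
      ∑ y : Fin N, ((univ.filter fun x : Fin N => (x : ℕ) + (y : ℕ) = z ∧ x ∉ U).card : ℝ) := by
    intro z hz
    obtain ⟨g1, g2, g3⟩ := hZ z hz
    have g4 := rep_card N z g1 e g2 g3 he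
    have g5 : (univ.filter fun p : Fin N × Fin N => (p.1 : ℕ) + (p.2 : ℕ) = z).card ≤
        U.card + (univ.filter fun p : Fin N × Fin N => (p.1 : ℕ) + (p.2 : ℕ) = z ∧ p.1 ∉ U).card := by
      have g6 : (univ.filter fun p : Fin N × Fin N => (p.1 : ℕ) + (p.2 : ℕ) = z ∧ p.1 ∈ U).card ≤
          U.card := by
        apply card_le_card_of_injOn (fun p : Fin N × Fin N => p.1)
        · intro p hp
          exact (mem_filter.1 hp).2.2
        · intro p hp p' hp' h
          have k1 := (mem_filter.1 hp).2.1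
          have k2 := (mem_filter.1 hp').2.1
          have k3 : p.1 = p'.1 := h
          refine Prod.ext k3 (Fin.ext ?_)
          rw [k3] at k1
          omega
      have g7 : (univ.filter fun p : Fin N × Fin N => (p.1 : ℕ) + (p.2 : ℕ) = z) ⊆
          (univ.filter fun p : Fin N × Fin N => (p.1 : ℕ) + (p.2 : ℕ) = z ∧ p.1 ∈ U) ∪
          (univ.filter fun p : Fin N × Fin N => (p.1 : ℕ) + (p.2 : ℕ) = z ∧ p.1 ∉ U) := by
        intro p hp
        have k1 := (mem_filter.1 hp).2
        by_cases h : p.1 ∈ U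
        · exact mem_union_left _ (mem_filter.2 ⟨mem_univ _, k1, h⟩)
        · exact mem_union_right _ (mem_filter.2 ⟨mem_univ _, k1, h⟩)
      exact (card_le_card g7).trans ((card_union_le _ _).trans (Nat.add_le_add_right g6 _))
    have g8 : (univ.filter fun p : Fin N × Fin N => (p.1 : ℕ) + (p.2 : ℕ) = z ∧ p.1 ∉ U).card =
        ∑ y : Fin N, (univ.filter fun x : Fin N => (x : ℕ) + (y : ℕ) = z ∧ x ∉ U).card := by
      rw [card_filter, Fintype.sum_prod_type, sum_comm]
      refine sum_congr rfl fun y _ => ?_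
      rw [card_filter]
    have g9 : e ≤ U.card +
        ∑ y : Fin N, (univ.filter fun x : Fin N => (x : ℕ) + (y : ℕ) = z ∧ x ∉ U).card := by
      rw [← g8]
      exact g4.trans g5
    have g10 : (e : ℝ) ≤ U.card +
        ∑ y : Fin N, ((univ.filter fun x : Fin N => (x : ℕ) + (y : ℕ) = z ∧ x ∉ U).card : ℝ) := by
      exact_mod_cast g9
    linarith
  calc (Z.card : ℝ) * (e - U.card) = ∑ z ∈ Z, ((e : ℝ) - U.card) := by
        rw [sum_const, nsmul_eq_mul]
    _ ≤ ∑ z ∈ Z, ∑ y : Fin N,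
        ((univ.filter fun x : Fin N => (x : ℕ) + (y : ℕ) = z ∧ x ∉ U).card : ℝ) :=
        sum_le_sum h3
    _ = ∑ y : Fin N, ∑ z ∈ Z,
        ((univ.filter fun x : Fin N => (x : ℕ) + (y : ℕ) = z ∧ x ∉ U).card : ℝ) := sum_comm
    _ = ∑ y, ((tr N Z y \ U).card : ℝ) := sum_congr rfl fun y _ => (h1 y).symm

/-- **Avoidance.** If `Z` is a set of at least `4 N / n` integers in the middle (margins `η N`), at most the
proportion `2 exp (- η n / 8)` of the pairs of arrays has no sum in `Z`. -/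
theorem avoid (n N : ℕ) (hN : 0 < N) (Z : Finset ℕ) (η : ℝ) (hη : 0 < η) (hη1 : η ≤ 1)
    (hZ : ∀ z ∈ Z, z < 2 * N - 1 ∧ η * N ≤ z + 1 ∧ η * N ≤ ((2 * N - 1 - z : ℕ) : ℝ))
    (hc : 4 * (N : ℝ) ≤ n * Z.card) :
    ((univ.filter fun p : (Fin n → Fin N) × (Fin n → Fin N) =>
      ∀ i j, (p.1 i : ℕ) + (p.2 j : ℕ) ∉ Z).card : ℝ) ≤
        2 * Real.exp (-(η * n / 8)) * ((N : ℝ) ^ n * (N : ℝ) ^ n) := by
  have hN' : (0 : ℝ) < N := by exact_mod_cast hN
  have hM : (0 : ℝ) < Z.card := by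
    by_contra h
    have h1 : (Z.card : ℝ) = 0 := le_antisymm (not_lt.1 h) (Nat.cast_nonneg _)
    rw [h1, mul_zero] at hc
    linarith
  -- the natural number `⌈η N⌉`
  have hceil : ∀ k : ℕ, η * N ≤ k → ⌈η * N⌉₊ ≤ k := fun k hk => Nat.ceil_le.2 hk
  have he : ⌈η * (N : ℝ)⌉₊ ≤ N := by
    apply hceil
    nlinarith
  have hnew := new_points N Z ⌈η * (N : ℝ)⌉₊ he (fun z hz => ⟨(hZ z hz).1, hceil _ (by
    have := (hZ z hz).2.1
    push_cast
    exact this), hceil _ (hZ z hz).2.2⟩)
  have hκ : ∀ U : Finset (Fin N), (U.card : ℝ) < η * N / 2 →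
      (η / 2) * Z.card * Fintype.card (Fin N) ≤ ∑ y, ((tr N Z y \ U).card : ℝ) := by
    intro U hU
    refine le_trans ?_ (hnew U)
    rw [Fintype.card_fin]
    have h1 : η * N ≤ (⌈η * (N : ℝ)⌉₊ : ℝ) := Nat.le_ceil _
    have h2 : η * N / 2 ≤ (⌈η * (N : ℝ)⌉₊ : ℝ) - U.card := by linarith
    calc η / 2 * Z.card * N = Z.card * (η * N / 2) := by ring
      _ ≤ _ := mul_le_mul_of_nonneg_left h2 hM.le
  have hθ : 0 ≤ η * (N : ℝ) / 2 := by positivity
  rcases few_pairs (tr N Z) (η * N / 2) Z.card (η / 2) hθ hM (by linarith) (by linarith)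
    (fun y => by exact_mod_cast tr_card N Z y) hκ n with h | h
  · have h1 : (univ.filter fun p : (Fin n → Fin N) × (Fin n → Fin N) =>
        ∀ i j, (p.1 i : ℕ) + (p.2 j : ℕ) ∉ Z) =
        (univ.filter fun p : (Fin n → Fin N) × (Fin n → Fin N) => ∀ i j, p.1 i ∉ tr N Z (p.2 j)) := by
      ext p
      simp [tr]
    rw [h1]
    refine h.trans ?_
    rw [Fintype.card_fin, mul_pow]
    have h2 : Real.exp (η * N / 2 / Z.card) ≤ Real.exp (η * n / 8) := by
      rw [Real.exp_le_exp, div_le_iff₀ hM]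
      nlinarith
    have h3 : (1 - η / 2 / 2) ^ n ≤ Real.exp (-(η * n / 4)) := by
      have h4 : 1 - η / 2 / 2 ≤ Real.exp (-(η / 4)) := by
        have := Real.add_one_le_exp (-(η / 4))
        linarith
      calc (1 - η / 2 / 2) ^ n ≤ Real.exp (-(η / 4)) ^ n := pow_le_pow_left₀ (by linarith) h4 _
        _ = Real.exp (-(η * n / 4)) := by
          rw [← Real.exp_nat_mul]
          congr 1
          ring
    have h5 : ((N : ℝ) - η * N / 2) ^ n ≤ Real.exp (-(η * n / 8)) * (N : ℝ) ^ n := by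
      have h4 : 1 - η / 2 ≤ Real.exp (-(η / 2)) := by
        have := Real.add_one_le_exp (-(η / 2))
        linarith
      have h6 : (1 - η / 2) ^ n ≤ Real.exp (-(η * n / 8)) := by
        calc (1 - η / 2) ^ n ≤ Real.exp (-(η / 2)) ^ n := pow_le_pow_left₀ (by linarith) h4 _
          _ = Real.exp (-(η * n / 2)) := by
            rw [← Real.exp_nat_mul]
            congr 1
            ring
          _ ≤ _ := by
            rw [Real.exp_le_exp]
            have : 0 ≤ η * n := by positivity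
            linarith
      calc ((N : ℝ) - η * N / 2) ^ n = (1 - η / 2) ^ n * (N : ℝ) ^ n := by
            rw [← mul_pow]
            congr 1
            ring
        _ ≤ _ := mul_le_mul_of_nonneg_right h6 (by positivity)
    have h7 : Real.exp (η * N / 2 / Z.card) * ((1 - η / 2 / 2) ^ n * (N : ℝ) ^ n) ≤
        Real.exp (-(η * n / 8)) * (N : ℝ) ^ n := by
      rw [← mul_assoc]
      apply mul_le_mul_of_nonneg_right _ (by positivity)
      calc Real.exp (η * N / 2 / Z.card) * (1 - η / 2 / 2) ^ n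
          ≤ Real.exp (η * n / 8) * Real.exp (-(η * n / 4)) :=
            mul_le_mul h2 h3 (pow_nonneg (by linarith) _) (Real.exp_pos _).le
        _ = Real.exp (-(η * n / 8)) := by
            rw [← Real.exp_add]
            congr 1
            ring
    have hp : (0 : ℝ) ≤ (N : ℝ) ^ n := by positivity
    have h8 := mul_le_mul_of_nonneg_left h7 hp
    have h9 := mul_le_mul_of_nonneg_right h5 hp
    calc _ ≤ (N : ℝ) ^ n * (Real.exp (-(η * n / 8)) * (N : ℝ) ^ n) +
          Real.exp (-(η * n / 8)) * (N : ℝ) ^ n * (N : ℝ) ^ n := add_le_add h8 h9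
      _ = _ := by ring
  · rw [Fintype.card_fin] at h
    exfalso
    nlinarith

end Pool.Agent.H36NC
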